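import Mathlib
import Pool.Agent.Work.MP_9159b8_an.Own

/-!
# A Jordan domain with the quadrature identity whose boundary is not locally `C¹`
-/

set_option autoImplicit false

open Set Metric MeasureTheory
open scoped MeasureTheory

namespace Pool.Agent.Results.MP_9159b8_an.NotC1

/-- `Ω` is a bounded Jordan domain with rectifiable boundary curve: a bounded connected open set
which is the image of the open unit disc under a map that is continuous and injective on the closed
disc and holomorphic in the open disc; the boundary of `Ω` is the image of the unit circle and has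
finite length. -/
def RectifiableJordanDomain (Ω : Set ℂ) : Prop :=
  IsOpen Ω ∧ IsConnected Ω ∧ Bornology.IsBounded Ω ∧ μH[1] (frontier Ω) < ⊤ ∧
    ∃ φ : ℂ → ℂ, ContinuousOn φ (closedBall 0 1) ∧ InjOn φ (closedBall 0 1) ∧
      DifferentiableOn ℂ φ (ball 0 1) ∧ φ '' ball 0 1 = Ω ∧ φ '' sphere 0 1 = frontier Ω

/-- The quadrature identity: the area mean over `Ω` and the arc length mean over the boundary of
`Re f` agree for all `f` holomorphic in `Ω` and continuous on the closure of `Ω`. -/
def QuadratureIdentity (Ω : Set ℂ) : Prop :=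
  ∀ f : ℂ → ℂ, DifferentiableOn ℂ f Ω → ContinuousOn f (closure Ω) →
    (volume Ω).toReal⁻¹ * ∫ z in Ω, (f z).re =
      (μH[1] (frontier Ω)).toReal⁻¹ * ∫ z in frontier Ω, (f z).re ∂μH[1]

/-- The set `Γ` is a regular `C¹` arc near `p`. -/
def IsC1ArcNear (Γ : Set ℂ) (p : ℂ) : Prop :=
  ∃ U : Set ℂ, IsOpen U ∧ p ∈ U ∧ ∃ (a b : ℝ) (g : ℝ → ℂ), a < b ∧ ContDiffOn ℝ 1 g (Ioo a b) ∧
    InjOn g (Ioo a b) ∧ (∀ t ∈ Ioo a b, deriv g t ≠ 0) ∧ Γ ∩ U = g '' Ioo a b

/-- There is a bounded Jordan domain with rectifiable boundary, with equal (finite, positive) area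
and boundary length, that satisfies the quadrature identity and has a boundary point near which
the boundary is not even a regular `C¹` arc. -/
theorem result : ∃ Ω : Set ℂ, RectifiableJordanDomain Ω ∧ QuadratureIdentity Ω ∧
    volume Ω = μH[1] (frontier Ω) ∧ ∃ p ∈ frontier Ω, ¬ IsC1ArcNear (frontier Ω) p := by
  obtain ⟨φ, Ω, h1, h2, h3, h4, h5, h6, h7, h8, h9, h10, h11, p, hp, h12⟩ :=
    Pool.Agent.Work.MP_9159b8_an.exists_domain
  refine ⟨Ω, ⟨h5, h6, h7, h9, φ, h1, h2, h3, h4.symm, h8.symm⟩, ?_, h10, p, hp, ?_⟩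
  · intro f hf hc
    rw [h11 f hf hc, h10]
  · rintro ⟨U, hU, hpU, h⟩
    exact h12 U hU hpU h

end Pool.Agent.Results.MP_9159b8_an.NotC1
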